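import Pool.Agent.Helper506.ArcPair

set_option autoImplicit false
open Complex Set Filter Metric Topology Pool.Agent.Helper506.ArcPair

namespace Pool.Agent.Results.MP_b8ff8c_an.AngleNotMonotone

/-- There is a support point `f` of `S` along whose omitted arc the angle between the radius and
tangent vectors is not monotone: for a regular analytic parametrisation `w` of the arc, a continuous
branch `B` of `arg (w' / w)` is neither nondecreasing nor nonincreasing. -/
theorem result : ∃ f : ℂ → ℂ, IsSupportPoint f ∧ ∃ w : ℝ → ℂ, ParamOmittedArc f w ∧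
    ∃ B : ℝ → ℝ, ContinuousOn B (Ici 0) ∧
      (∀ t : ℝ, 0 ≤ t → deriv w t / w t = ‖deriv w t / w t‖ * Complex.exp (B t * I)) ∧
      ¬ MonotoneOn B (Ici 0) ∧ ¬ AntitoneOn B (Ici 0) := by
  obtain ⟨f, hf, w, hw, -, hB⟩ := pair
  exact ⟨f, hf, w, hw, hB⟩

end Pool.Agent.Results.MP_b8ff8c_an.AngleNotMonotone
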